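import Mathlib
import Pool.Agent.Lib_MP_755967_pr_ins.Core

set_option autoImplicit false

open MeasureTheory ProbabilityTheory Filter Topology

namespace Pool.Agent.Results.MP_755967_pr.RateAndLowerTail

universe u

/-- The pairs `i < j` of the `N` sites; they index the disorder variables `g_{ij}`. -/
abbrev Pairs (N : ℕ) : Type := {p : Fin N × Fin N // p.1 < p.2}

/-- The partition function of the Sherrington-Kirkpatrick model without external field at inverse
temperature `β`: the sum over all `σ` in `{-1, 1}^N` of `exp (β / √N * ∑_{i < j} x_{ij} σ_i σ_j)`,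
as a function of the disorder `x`. -/
noncomputable def Z (β : ℝ) (N : ℕ) (x : Pairs N → ℝ) : ℝ :=
  ∑ σ ∈ Fintype.piFinset fun _ : Fin N => ({-1, 1} : Finset ℝ),
    Real.exp (β / √N * ∑ p : Pairs N, x p * σ p.1.1 * σ p.1.2)

section transfer

open Pool.Agent.Lib_755967

lemma sp_injective : Function.Injective sp := by
  intro a b h
  unfold sp at h
  fin_cases a <;> fin_cases b <;> first | rfl | (exfalso; norm_num at h)

lemma image_sp : (Finset.univ : Finset (Fin 2)).image sp = {-1, 1} := by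
  ext x
  simp only [Finset.mem_image, Finset.mem_univ, true_and, Finset.mem_insert,
    Finset.mem_singleton]
  constructor
  · rintro ⟨a, rfl⟩
    unfold sp
    fin_cases a
    · right; simp
    · left; simp
  · rintro (rfl | rfl)
    · exact ⟨1, by unfold sp; simp⟩
    · exact ⟨0, by unfold sp; simp⟩

lemma Z_restrict (β : ℝ) (N : ℕ) (x : Fin N × Fin N → ℝ) :
    Z β N (fun p => x p.1) =
      Pool.Agent.Lib_755967.Z (0 : (Fin N → Fin 2) → ℝ) (vSK N β) x := by
  unfold Z Pool.Agent.Lib_755967.Z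
  rw [← image_sp, Fintype.piFinset_image, Fintype.piFinset_univ, Finset.sum_image]
  · refine Finset.sum_congr rfl fun τ _ => ?_
    congr 1
    rw [Pi.zero_apply, zero_add]
    unfold dot vSK
    have h1 : ∀ p : Fin N × Fin N,
        x p * (if p.1 < p.2 then β / √N * (sp (τ p.1) * sp (τ p.2)) else 0) =
        if p.1 < p.2 then β / √N * (x p * sp (τ p.1) * sp (τ p.2)) else 0 := by
      intro p
      split_ifs
      · ring
      · ring
    simp_rw [h1]
    rw [← Finset.sum_filter, Finset.mul_sum]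
    exact (Finset.sum_subtype (p := fun p : Fin N × Fin N => p.1 < p.2)
      (Finset.univ.filter fun p : Fin N × Fin N => p.1 < p.2)
      (by simp) (fun p => β / √N * (x p * sp (τ p.1) * sp (τ p.2)))).symm
  · intro a _ b _ h
    funext i
    exact sp_injective (congrFun h i)

lemma measurable_Z (β : ℝ) (N : ℕ) : Measurable (Z β N) := by
  unfold Z
  fun_prop

lemma mp_restrict (N : ℕ) :
    MeasurePreserving (fun (x : Fin N × Fin N → ℝ) (p : Pairs N) => x p.1)
      (gam (Fin N × Fin N)) (gam (Pairs N)) := by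
  have h := (measurePreserving_piEquivPiSubtypeProd (fun _ : Fin N × Fin N => gaussianReal 0 1)
    (fun p => p.1 < p.2))
  exact measurePreserving_fst.comp h

variable {Ω : Type u} [MeasurableSpace Ω] {P : Measure Ω}

lemma map_disorder {N : ℕ} {g : Ω → Pairs N → ℝ} (hi : iIndepFun (fun p ω => g ω p) P)
    (hl : ∀ p, HasLaw (fun ω => g ω p) (gaussianReal 0 1) P) :
    AEMeasurable g P ∧ P.map g = gam (Pairs N) := by
  have hm : ∀ p, AEMeasurable (fun ω => g ω p) P := fun p => (hl p).aemeasurable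
  refine ⟨aemeasurable_pi_iff.2 hm, ?_⟩
  have h := hi.map_fun_eq_pi_map hm
  simp_rw [(hl _).map_eq] at h
  exact h

lemma integral_transfer {β : ℝ} {N : ℕ} {g : Ω → Pairs N → ℝ}
    (hi : iIndepFun (fun p ω => g ω p) P)
    (hl : ∀ p, HasLaw (fun ω => g ω p) (gaussianReal 0 1) P) {f : ℝ → ℝ} (hf : Measurable f) :
    ∫ ω, f (Z β N (g ω)) ∂P =
      ∫ x, f (Pool.Agent.Lib_755967.Z (0 : (Fin N → Fin 2) → ℝ) (vSK N β) x)
        ∂(gam (Fin N × Fin N)) := by
  obtain ⟨hm, he⟩ := map_disorder hi hl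
  have hF : Measurable fun y => f (Z β N y) := hf.comp (measurable_Z β N)
  rw [← integral_map (φ := g) (f := fun y => f (Z β N y)) hm hF.aestronglyMeasurable, he,
    ← (mp_restrict N).map_eq, integral_map (mp_restrict N).measurable.aemeasurable
      hF.aestronglyMeasurable]
  simp_rw [Z_restrict]

lemma integrable_transfer {β : ℝ} {N : ℕ} {g : Ω → Pairs N → ℝ}
    (hi : iIndepFun (fun p ω => g ω p) P)
    (hl : ∀ p, HasLaw (fun ω => g ω p) (gaussianReal 0 1) P) {f : ℝ → ℝ} (hf : Measurable f)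
    (h : Integrable (fun x => f (Pool.Agent.Lib_755967.Z (0 : (Fin N → Fin 2) → ℝ) (vSK N β) x))
        (gam (Fin N × Fin N))) :
    Integrable (fun ω => f (Z β N (g ω))) P := by
  obtain ⟨hm, he⟩ := map_disorder hi hl
  have hF : Measurable fun y => f (Z β N y) := hf.comp (measurable_Z β N)
  have h1 : Integrable (fun y => f (Z β N y)) (gam (Pairs N)) := by
    rw [← (mp_restrict N).map_eq, integrable_map_measure hF.aestronglyMeasurable
      (mp_restrict N).measurable.aemeasurable]
    have : (fun y => f (Z β N y)) ∘ (fun (x : Fin N × Fin N → ℝ) (p : Pairs N) => x p.1) =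
        fun x => f (Pool.Agent.Lib_755967.Z (0 : (Fin N → Fin 2) → ℝ) (vSK N β) x) := by
      funext x
      simp only [Function.comp_apply, Z_restrict]
    rw [this]
    exact h
  rw [← he, integrable_map_measure hF.aestronglyMeasurable hm] at h1
  exact h1

end transfer

/-- Negative moments of the Sherrington-Kirkpatrick partition function, with a rate. For every
`β > 0` there is a number `L` such that for all i.i.d. standard Gaussian `g_{ij}`, `i < j`, on any
probability space: (1) `E log Z_N / N → L`; (2) `log E Z_N^a / (a N) → L` for every real `a < 0`;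
(3) for all `N ≥ 1` and `0 < s ≤ 1/2`, with `C = (1 + 4 β^2)^3`: `log Z_N` and `Z_N^a` are
integrable, the difference of the two quantities lies between `0` and `C (s + |a| N^(-s))` for all
`a < 0`, and `P (log Z_N ≤ E log Z_N - 4 C s N) ≤ exp (- 2 C s^2 N^(1 + s))`. -/
theorem result (β : ℝ) (hβ : 0 < β) :
    ∃ L : ℝ, ∀ (Ω : Type u) [MeasurableSpace Ω] (P : Measure Ω) [IsProbabilityMeasure P]
      (g : (N : ℕ) → Ω → Pairs N → ℝ),
      (∀ N, iIndepFun (fun p ω => g N ω p) P) →
      (∀ N p, HasLaw (fun ω => g N ω p) (gaussianReal 0 1) P) →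
      Tendsto (fun N : ℕ => 1 / N * ∫ ω, Real.log (Z β N (g N ω)) ∂P) atTop (𝓝 L) ∧
      (∀ a : ℝ, a < 0 → Tendsto (fun N : ℕ =>
        1 / (a * N) * Real.log (∫ ω, Z β N (g N ω) ^ a ∂P)) atTop (𝓝 L)) ∧
      ∀ N : ℕ, 1 ≤ N →
        Integrable (fun ω => Real.log (Z β N (g N ω))) P ∧
        (∀ a : ℝ, a < 0 → Integrable (fun ω => Z β N (g N ω) ^ a) P ∧
          ∀ s : ℝ, 0 < s → s ≤ 1 / 2 →
            1 / N * ∫ ω, Real.log (Z β N (g N ω)) ∂P -
                1 / (a * N) * Real.log (∫ ω, Z β N (g N ω) ^ a ∂P) ∈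
              Set.Icc 0 ((1 + 4 * β ^ 2) ^ 3 * (s + |a| * (N : ℝ) ^ (-s)))) ∧
        ∀ s : ℝ, 0 < s → s ≤ 1 / 2 →
          P.real {ω | Real.log (Z β N (g N ω)) ≤
              ∫ ω, Real.log (Z β N (g N ω)) ∂P - 4 * (1 + 4 * β ^ 2) ^ 3 * s * N} ≤
            Real.exp (-(2 * (1 + 4 * β ^ 2) ^ 3 * s ^ 2 * (N : ℝ) ^ (1 + s))) := by
  obtain ⟨l, hl⟩ := Pool.Agent.Lib_755967.EF_tendsto β
  refine ⟨l, fun Ω _ P _ g hi hlaw => ?_⟩
  -- the two expectations in the library form
  have hlog : ∀ N : ℕ, ∫ ω, Real.log (Z β N (g N ω)) ∂P = Pool.Agent.Lib_755967.EF β N := by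
    intro N
    exact integral_transfer (hi N) (hlaw N) Real.measurable_log
  have hrp : ∀ (N : ℕ) (a : ℝ) (x : Fin N × Fin N → ℝ),
      Pool.Agent.Lib_755967.Z (0 : (Fin N → Fin 2) → ℝ) (Pool.Agent.Lib_755967.vSK N β) x ^ a =
      Real.exp (a * Pool.Agent.Lib_755967.L (0 : (Fin N → Fin 2) → ℝ)
        (Pool.Agent.Lib_755967.vSK N β) x) := by
    intro N a x
    rw [Real.rpow_def_of_pos (Pool.Agent.Lib_755967.Z_pos _ _ _), mul_comm]
    rfl
  have hpow : ∀ (N : ℕ) (a : ℝ), ∫ ω, Z β N (g N ω) ^ a ∂P =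
      ∫ x, Real.exp (a * Pool.Agent.Lib_755967.L (0 : (Fin N → Fin 2) → ℝ)
        (Pool.Agent.Lib_755967.vSK N β) x) ∂(Pool.Agent.Lib_755967.gam (Fin N × Fin N)) := by
    intro N a
    have h := integral_transfer (β := β) (hi N) (hlaw N) (f := fun z => z ^ a) (by fun_prop)
    rw [h]
    simp_rw [hrp]
  have hIlog : ∀ N : ℕ, Integrable (fun ω => Real.log (Z β N (g N ω))) P := fun N =>
    integrable_transfer (hi N) (hlaw N) Real.measurable_log
      (Pool.Agent.Lib_755967.integrable_L _ _)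
  have hIpow : ∀ (N : ℕ) (a : ℝ), a < 0 → Integrable (fun ω => Z β N (g N ω) ^ a) P := by
    intro N a ha
    refine integrable_transfer (hi N) (hlaw N) (f := fun z => z ^ a) (by fun_prop) ?_
    simp_rw [hrp]
    have h := Pool.Agent.Lib_755967.integrable_exp_L N β (-a) (by linarith)
    rwa [neg_neg] at h
  have hZpos : ∀ (N : ℕ) (x : Pairs N → ℝ), 0 < Z β N x := by
    intro N x
    unfold Z
    refine Finset.sum_pos (fun σ _ => Real.exp_pos _) ?_
    exact ⟨fun _ => 1, Fintype.mem_piFinset.2 fun i => by simp⟩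
  refine ⟨?_, ?_, ?_⟩
  · refine hl.congr fun N => ?_
    rw [hlog, div_eq_mul_one_div, mul_comm]
  · intro a ha
    refine (Pool.Agent.Lib_755967.main hβ ha hl).congr fun N => ?_
    rw [hpow]
  · intro N hN
    have hN' : (0 : ℝ) < N := by exact_mod_cast hN
    refine ⟨hIlog N, fun a ha => ⟨hIpow N a ha, fun s hs hs2 => ?_⟩, fun s hs hs2 => ?_⟩
    · obtain ⟨b, hb⟩ : ∃ b : ℝ, b = -a := ⟨_, rfl⟩
      have hb0 : 0 < b := by linarith
      obtain rfl : a = -b := by linarith
      have h1 := Pool.Agent.Lib_MP_755967_pr_ins.rate hN hβ hb0 hs hs2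
      have h2 := Pool.Agent.Lib_755967.neg_moment_lower N β hb0
      rw [hlog, hpow, abs_neg, abs_of_pos hb0]
      set I := Real.log (∫ x, Real.exp (-b * Pool.Agent.Lib_755967.L (0 : (Fin N → Fin 2) → ℝ)
        (Pool.Agent.Lib_755967.vSK N β) x) ∂(Pool.Agent.Lib_755967.gam (Fin N × Fin N))) with hI
      have e1 : 1 / (N : ℝ) * Pool.Agent.Lib_755967.EF β N - 1 / (-b * N) * I =
          (I + b * Pool.Agent.Lib_755967.EF β N) / (b * N) := by
        field_simp
        ring
      rw [e1]
      have hbN : 0 < b * (N : ℝ) := by positivity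
      constructor
      · exact div_nonneg (by linarith) hbN.le
      · rw [div_le_iff₀ hbN, mul_comm _ (b * (N : ℝ))]
        exact h1
    · set C : ℝ := (1 + 4 * β ^ 2) ^ 3 with hC
      set b : ℝ := s * (N : ℝ) ^ s with hb
      have hb0 : 0 < b := mul_pos hs (Real.rpow_pos_of_pos hN' _)
      have h1 := Pool.Agent.Lib_MP_755967_pr_ins.rate hN hβ hb0 hs hs2
      rw [← hC] at h1
      have hbs : b * (N : ℝ) ^ (-s) = s := by
        rw [hb, mul_assoc, ← Real.rpow_add hN', add_neg_cancel, Real.rpow_zero, mul_one]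
      rw [hbs] at h1
      -- the Chernoff bound
      have hexp : ∀ ω, Real.exp (-b * Real.log (Z β N (g N ω))) = Z β N (g N ω) ^ (-b) := by
        intro ω
        rw [Real.rpow_def_of_pos (hZpos N _), mul_comm]
      have hint : Integrable (fun ω => Real.exp (-b * Real.log (Z β N (g N ω)))) P := by
        simp_rw [hexp]
        exact hIpow N (-b) (by linarith)
      have hch := measure_le_le_exp_cgf (μ := P) (X := fun ω => Real.log (Z β N (g N ω)))
        (t := -b) (∫ ω, Real.log (Z β N (g N ω)) ∂P - 4 * C * s * N) (by linarith) hint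
      refine hch.trans ?_
      rw [Real.exp_le_exp]
      have hcgf : cgf (fun ω => Real.log (Z β N (g N ω))) P (-b) =
          Real.log (∫ x, Real.exp (-b * Pool.Agent.Lib_755967.L (0 : (Fin N → Fin 2) → ℝ)
        (Pool.Agent.Lib_755967.vSK N β) x) ∂(Pool.Agent.Lib_755967.gam (Fin N × Fin N))) := by
        unfold cgf mgf
        simp_rw [hexp]
        rw [hpow]
      rw [hcgf, hlog]
      have e2 : (N : ℝ) ^ (1 + s) = N * (N : ℝ) ^ s := by
        rw [Real.rpow_add hN', Real.rpow_one]
      have e3 : 2 * C * s ^ 2 * (N : ℝ) ^ (1 + s) = b * N * (2 * C * s) := by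
        rw [e2, hb]; ring
      rw [e3]
      have e4 : b * N * (C * (s + s)) = b * N * (2 * C * s) := by ring
      rw [e4] at h1
      have e5 : - -b * (Pool.Agent.Lib_755967.EF β N - 4 * C * s * N) =
          b * Pool.Agent.Lib_755967.EF β N - 2 * (b * N * (2 * C * s)) := by ring
      rw [e5]
      linarith

end Pool.Agent.Results.MP_755967_pr.RateAndLowerTail
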